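import Pool.Agent.Helper98.NF.PushBound
import Pool.Agent.Helper4.NF.Num

/-!
# Pushdown programs with few states and steps
-/

set_option autoImplicit false

namespace Pool.Agent.Helper98.NF

open Pool.Agent.Helper19.NF Pool.Agent.Helper4.NF

/-- The size of the simulation. -/
theorem size_le {n w q g : ℕ} (hn : (46656 : ℝ) ≤ n) (hl : 10 ≤ Real.log n) (hw : (16 * w ^ 2 : ℝ) ≤ n * Real.log n)
    (hq : q ≤ 2 ^ w) (hg : g ≤ 2 ^ w) :
    (((10 * q ^ 2 * (g + 1) * (2 ^ w + 1) ^ 4) ^ (w + 1) : ℕ) : ℝ) ≤ (n : ℝ) ^ ((n : ℝ) / 3) := by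
  have h1 : 10 * q ^ 2 * (g + 1) * (2 ^ w + 1) ^ 4 ≤ 2 ^ (7 * w + 9) := by
    have h2 : 2 ^ w + 1 ≤ 2 ^ (w + 1) := by
      have := Nat.one_le_two_pow (n := w)
      rw [pow_succ]
      omega
    calc 10 * q ^ 2 * (g + 1) * (2 ^ w + 1) ^ 4 ≤ 2 ^ 4 * (2 ^ w) ^ 2 * 2 ^ (w + 1) * (2 ^ (w + 1)) ^ 4 :=
          Nat.mul_le_mul (Nat.mul_le_mul (Nat.mul_le_mul (by norm_num) (Nat.pow_le_pow_left hq 2))
            (by omega)) (Nat.pow_le_pow_left h2 4)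
      _ = 2 ^ (7 * w + 9) := by
          rw [← pow_mul, ← pow_mul, ← pow_add, ← pow_add, ← pow_add]
          congr 1
          ring
  have h2 : (10 * q ^ 2 * (g + 1) * (2 ^ w + 1) ^ 4) ^ (w + 1) ≤ 2 ^ ((7 * w + 9) * (w + 1)) := by
    rw [pow_mul]
    exact Nat.pow_le_pow_left h1 _
  have hn0 : (0 : ℝ) < n := by linarith
  have hX : (466560 : ℝ) ≤ n * Real.log n := by nlinarith
  have h3 : Real.log 2 * ((7 * w + 9) * (w + 1)) ≤ Real.log n * (n / 3) := by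
    have h4 := Real.log_two_lt_d9
    have h5 : (w : ℝ) ≤ w ^ 2 / 100 + 25 := by nlinarith [sq_nonneg ((w : ℝ) / 10 - 5)]
    have h6 : Real.log 2 * ((7 * w + 9) * (w + 1)) ≤ 0.6931471808 * ((7 * w + 9) * (w + 1)) :=
      mul_le_mul_of_nonneg_right h4.le (by positivity)
    nlinarith
  calc (((10 * q ^ 2 * (g + 1) * (2 ^ w + 1) ^ 4) ^ (w + 1) : ℕ) : ℝ)
      ≤ ((2 ^ ((7 * w + 9) * (w + 1)) : ℕ) : ℝ) := Nat.cast_le.2 h2
    _ = Real.exp (Real.log 2 * ((7 * w + 9) * (w + 1))) := by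
        rw [Nat.cast_pow, ← Real.rpow_natCast, Real.rpow_def_of_pos (by norm_num)]
        push_cast
        rfl
    _ ≤ Real.exp (Real.log n * (n / 3)) := Real.exp_le_exp.2 h3
    _ = (n : ℝ) ^ ((n : ℝ) / 3) := by rw [Real.rpow_def_of_pos hn0]

/-- **Pushdown programs.** A deterministic pushdown program with at most `2 ^ w` states and `2 ^ w` symbols,
`16 w ^ 2 ≤ n log n`, is right within `2 ^ w` steps and with at most `(1 - 2 (log n) / m) |B|` queried cells on at most a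
part `p / |B| + 1 / 50` of the inputs. -/
theorem push_head {n m : ℕ} [NeZero m] {B Y : Type} [AddCommGroup B] [Fintype B] (x0 : Pos n m → B)
    (h0 : Function.Injective x0) {Q Γ : Type} [Finite Q] [Finite Γ] (P : PProg B (Dir m → B) Y Q Γ) (φ : B → Y)
    (p T w : ℕ) (hφ : ∀ y, Nat.card {b // φ b = y} ≤ p) (hm : (6 * m ^ 2 : ℝ) ≤ Real.sqrt n)
    (hk : n ^ 5 ≤ Fintype.card B) (hT : (T : ℝ) ≤ (1 - 2 * Real.log n / m) * Fintype.card B)
    (hQ : Nat.card Q ≤ 2 ^ w) (hΓ : Nat.card Γ ≤ 2 ^ w) (hw : (16 * w ^ 2 : ℝ) ≤ n * Real.log n) :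
    (Nat.card {I : B → Dir m → B // (∃ j ≤ 2 ^ w, P.act (P.conf I j).1 = .out (φ (out x0 I))) ∧
        Nat.card {b // P.Asks I b} ≤ T} : ℝ) ≤
      (p / Fintype.card B + 1 / 50) * Nat.card (B → Dir m → B) := by
  have hk0 : (0 : ℝ) < Fintype.card B := by
    exact_mod_cast Fintype.card_pos_iff.2 (⟨0⟩ : Nonempty B)
  have hm1 : 1 ≤ m := Nat.one_le_iff_ne_zero.2 (NeZero.ne m)
  have hK0 : (0 : ℝ) ≤ (T : ℝ) / Fintype.card B := by positivity
  have hK : (T : ℝ) / Fintype.card B ≤ 1 - 2 * Real.log n / m := (div_le_iff₀ hk0).2 hT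
  obtain ⟨h46, -, hl⟩ := large_of n m _ hm1 hK0 hK hm
  have hn0 : (0 : ℝ) < n := by linarith
  have hn : 1 ≤ n := by
    have : 0 < n := by exact_mod_cast hn0
    omega
  refine (push_bound hn x0 h0 P φ p T hφ n hn0 w).trans (mul_le_mul_of_nonneg_right ?_ (Nat.cast_nonneg _))
  have h1 := numbers_k' n m 0 (Fintype.card B) _ hm1 hK0 hK hm hk (by omega)
  have h2 := total_of n m 1 ((10 * Nat.card Q ^ 2 * (Nat.card Γ + 1) * (2 ^ w + 1) ^ 4) ^ (w + 1)) _ _ hm1 hK0 hK hm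
    (by rw [Nat.cast_one, one_mul]; exact size_le h46 hl hw hQ hΓ) h1
  rw [Nat.cast_one, one_mul, Nat.cast_zero, add_zero] at h2
  rw [add_div]
  linarith

end Pool.Agent.Helper98.NF
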