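import Pool.Agent.Helper19.NF.Model

/-!
# Devices with subroutines

A device is a deterministic program with silent moves; a machine is a main program which calls a subroutine. A device
whose states form a finite type is a branching program.
-/

namespace Pool.Agent.Helper98.NF

open Pool.Agent.Helper19.NF

/-- The instructions of a device: query a cell, go to a state, return a value. -/
inductive DAct (C W Q Y : Type)
  | ask (c : C) (k : W → Q) : DAct C W Q Y
  | goto (q : Q) : DAct C W Q Y
  | ret (y : Y) : DAct C W Q Y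

/-- A device which gets an argument in `X` and returns a value in `Y`. -/
structure Dev (C W X Y : Type) where
  Q : Type
  init : X → Q
  act : Q → DAct C W Q Y

variable {C W X Y X' Y' : Type}

/-- The device comes from the state `q` to the value `y` and queries only cells in `R`. -/
inductive Ev (D : Dev C W X Y) (I : C → W) (R : Set C) : D.Q → Y → Prop
  | ret {q : D.Q} {y : Y} (h : D.act q = .ret y) : Ev D I R q y
  | goto {q q' : D.Q} {y : Y} (h : D.act q = .goto q') (h' : Ev D I R q' y) : Ev D I R q y
  | ask {q : D.Q} {c : C} {k : W → D.Q} {y : Y} (h : D.act q = .ask c k) (hc : c ∈ R)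
      (h' : Ev D I R (k (I c)) y) : Ev D I R q y

theorem Ev.mono {D : Dev C W X Y} {I : C → W} {R R' : Set C} (hR : R ⊆ R') {q : D.Q} {y : Y}
    (h : Ev D I R q y) : Ev D I R' q y := by
  induction h with
  | ret h => exact .ret h
  | goto h _ ih => exact .goto h ih
  | ask h hc _ ih => exact .ask h (hR hc) ih

/-! ## From devices to branching programs -/

section toBP

variable {D : Dev C W X Y}

/-- One silent move. -/
def gt (D : Dev C W X Y) (q : D.Q) : D.Q :=
  match D.act q with
  | .goto q' => q'
  | _ => q

open Classical in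
/-- The state after all silent moves. -/
noncomputable def rs (D : Dev C W X Y) (q : D.Q) : D.Q :=
  if h : ∃ n, ∀ q', D.act ((gt D)^[n] q) ≠ .goto q' then (gt D)^[Nat.find h] q else q

theorem rs_of_not {q : D.Q} (h : ∀ q', D.act q ≠ .goto q') : rs D q = q := by
  classical
  have h1 : ∃ n, ∀ q', D.act ((gt D)^[n] q) ≠ .goto q' := ⟨0, h⟩
  have h2 : Nat.find h1 = 0 := (Nat.find_eq_zero h1).2 h
  unfold rs
  rw [dif_pos h1, h2]
  rfl

theorem rs_goto {q q' : D.Q} (h : D.act q = .goto q') (hq : ∃ n, ∀ q'', D.act ((gt D)^[n] q') ≠ .goto q'') :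
    rs D q = rs D q' := by
  classical
  have hg : gt D q = q' := by
    unfold gt
    rw [h]
  have h1 : ∃ n, ∀ q'', D.act ((gt D)^[n] q) ≠ .goto q'' := by
    obtain ⟨n, hn⟩ := hq
    exact ⟨n + 1, by rw [Function.iterate_succ_apply, hg]; exact hn⟩
  have h2 : Nat.find h1 = Nat.find hq + 1 := by
    rw [Nat.find_eq_iff]
    refine ⟨?_, fun m hm => ?_⟩
    · rw [Function.iterate_succ_apply, hg]
      exact Nat.find_spec hq
    · rcases m with _ | m
      · push Not
        exact ⟨q', h⟩
      · rw [Function.iterate_succ_apply, hg]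
        exact Nat.find_min hq (by omega)
  unfold rs
  rw [dif_pos h1, dif_pos hq, h2, Function.iterate_succ_apply, hg]

theorem Ev.stops {I : C → W} {R : Set C} {q : D.Q} {y : Y} (h : Ev D I R q y) :
    ∃ n, ∀ q'', D.act ((gt D)^[n] q) ≠ .goto q'' := by
  induction h with
  | ret h => exact ⟨0, fun q'' hq => by rw [Function.iterate_zero_apply, h] at hq; cases hq⟩
  | @goto q q' y h _ ih =>
    obtain ⟨n, hn⟩ := ih
    refine ⟨n + 1, ?_⟩
    rw [Function.iterate_succ_apply]
    have hg : gt D q = q' := by
      unfold gt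
      rw [h]
    rw [hg]
    exact hn
  | ask h _ _ _ => exact ⟨0, fun q'' hq => by rw [Function.iterate_zero_apply, h] at hq; cases hq⟩

/-! ### Programs with an arbitrary finite set of states -/

section prog

variable {Z S : Type}

/-- One step of a program whose states form the type `S`. -/
def move (act : S → (C × (W → S)) ⊕ Z) (I : C → W) (s : S) : S :=
  (act s).elim (fun t => t.2 (I t.1)) (fun _ => s)

/-- From the state `s` the program outputs `a` and queries only cells in `R`. -/
def Good (act : S → (C × (W → S)) ⊕ Z) (I : C → W) (R : Set C) (a : Z) (s : S) : Prop :=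
  (∃ m, act ((move act I)^[m] s) = Sum.inr a) ∧
    ∀ m c nx, act ((move act I)^[m] s) = Sum.inl (c, nx) → c ∈ R

theorem good_final {act : S → (C × (W → S)) ⊕ Z} {I : C → W} {R : Set C} {a : Z} {s : S}
    (h : act s = Sum.inr a) : Good act I R a s := by
  have h1 : ∀ m, (move act I)^[m] s = s := by
    intro m
    induction m with
    | zero => rfl
    | succ m ih => rw [Function.iterate_succ_apply', ih, move, h, Sum.elim_inr]
  refine ⟨⟨0, h⟩, fun m c nx hm => ?_⟩
  rw [h1, h] at hm
  exact absurd hm (by simp)

theorem good_step {act : S → (C × (W → S)) ⊕ Z} {I : C → W} {R : Set C} {a : Z} {s : S} {c : C} {nx : W → S}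
    (h : act s = Sum.inl (c, nx)) (hc : c ∈ R) (hg : Good act I R a (nx (I c))) : Good act I R a s := by
  have h1 : move act I s = nx (I c) := by rw [move, h, Sum.elim_inl]
  obtain ⟨⟨m, hm⟩, h2⟩ := hg
  refine ⟨⟨m + 1, by rw [Function.iterate_succ_apply, h1]; exact hm⟩, fun m' c' nx' hm' => ?_⟩
  rcases m' with _ | m'
  · rw [Function.iterate_zero_apply, h] at hm'
    have := (Prod.mk.inj (Sum.inl_injective hm')).1
    rw [← this]
    exact hc
  · rw [Function.iterate_succ_apply, h1] at hm'
    exact h2 m' c' nx' hm'

/-- A program with a finite type of states is a branching program. -/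
theorem exists_prog [Fintype S] {σ : ℕ} (act : S → (C × (W → S)) ⊕ Z) (s₀ : Fin σ → S) :
    ∃ B : Prog C W Z σ (Fintype.card S), ∀ (I : C → W) (R : Set C) (i : Fin σ) (a : Z), Good act I R a (s₀ i) →
      B.Outputs I (B.start i) a ∧ ∀ c, B.Asks I (B.start i) c → c ∈ R := by
  classical
  let e := Fintype.equivFin S
  let B : Prog C W Z σ (Fintype.card S) :=
    { start := fun i => e (s₀ i)
      act := fun q => (act (e.symm q)).map (fun t => (t.1, fun a => e (t.2 a))) id }
  have hst : ∀ (I : C → W) (s : S), B.step I (e s) = e (move act I s) := by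
    intro I s
    unfold Prog.step move
    show ((act (e.symm (e s))).map _ id).elim _ _ = _
    rw [Equiv.symm_apply_apply]
    rcases act s with t | a <;> rfl
  have hit : ∀ (I : C → W) (i : Fin σ) (m : ℕ), (B.step I)^[m] (e (s₀ i)) = e ((move act I)^[m] (s₀ i)) := by
    intro I i m
    induction m with
    | zero => rfl
    | succ m ih => rw [Function.iterate_succ_apply', ih, hst, Function.iterate_succ_apply']
  have hact : ∀ s, B.act (e s) = (act s).map (fun t => (t.1, fun a => e (t.2 a))) id := by
    intro s
    show (act (e.symm (e s))).map _ id = _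
    rw [Equiv.symm_apply_apply]
  refine ⟨B, fun I R i a hg => ⟨?_, ?_⟩⟩
  · obtain ⟨⟨m, hm⟩, -⟩ := hg
    refine ⟨m, ?_⟩
    show B.act ((B.step I)^[m] (e (s₀ i))) = _
    rw [hit, hact, hm]
    rfl
  · rintro c ⟨m, nx, hm⟩
    change B.act ((B.step I)^[m] (e (s₀ i))) = _ at hm
    rw [hit, hact] at hm
    rcases h : act ((move act I)^[m] (s₀ i)) with t | a'
    · rw [h] at hm
      have h1 : t.1 = c := (Prod.mk.inj (Sum.inl_injective hm)).1
      rw [← h1]
      exact hg.2 m t.1 t.2 h
    · rw [h] at hm
      exact absurd hm (by simp)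

theorem good_congr {act : S → (C × (W → S)) ⊕ Z} {I : C → W} {R : Set C} {a : Z} {s s' : S}
    (h : act s = act s') (hg : Good act I R a s') : Good act I R a s := by
  rcases hs : act s' with ⟨c, nx⟩ | b
  · have hc : c ∈ R := hg.2 0 c nx hs
    refine good_step (h.trans hs) hc ?_
    have h1 : move act I s' = nx (I c) := by rw [move, hs, Sum.elim_inl]
    obtain ⟨⟨m, hm⟩, h2⟩ := hg
    refine ⟨?_, fun m' c' nx' hm' => h2 (m' + 1) c' nx' ?_⟩
    · rcases m with _ | m
      · rw [Function.iterate_zero_apply, hs] at hm
        cases hm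
      · rw [Function.iterate_succ_apply, h1] at hm
        exact ⟨m, hm⟩
    · rw [Function.iterate_succ_apply, h1]
      exact hm'
  · have h1 : ∀ m, (move act I)^[m] s' = s' := by
      intro m
      induction m with
      | zero => rfl
      | succ m ih => rw [Function.iterate_succ_apply', ih, move, hs, Sum.elim_inr]
    obtain ⟨⟨m, hm⟩, -⟩ := hg
    rw [h1, hs] at hm
    cases hm
    exact good_final (h.trans hs)

end prog

/-- The instructions of the branching program of a device. -/
noncomputable def bact {Z : Type} (D : Dev C W X Y) (o : Y → Z) (a₀ : Z) (q : D.Q) : (C × (W → D.Q)) ⊕ Z :=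
  match D.act (rs D q) with
  | .ask c k => Sum.inl (c, k)
  | .goto _ => Sum.inr a₀
  | .ret y => Sum.inr (o y)

theorem Ev.good {Z : Type} {o : Y → Z} {a₀ : Z} {I : C → W} {R : Set C} {q : D.Q} {y : Y} (h : Ev D I R q y) :
    Good (bact D o a₀) I R (o y) q := by
  induction h with
  | @ret q y h =>
    refine good_final ?_
    unfold bact
    rw [rs_of_not (by intro q' hq; rw [h] at hq; cases hq), h]
  | @goto q q' y h h' ih =>
    refine good_congr ?_ ih
    unfold bact
    rw [rs_goto h h'.stops]
  | @ask q c k y h hc h' ih =>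
    refine good_step (c := c) (nx := k) ?_ hc ih
    unfold bact
    rw [rs_of_not (by intro q' hq; rw [h] at hq; cases hq), h]

/-- A device with a finite type of states is a branching program. -/
theorem Dev.toProg {Z : Type} {σ : ℕ} (D : Dev C W X Y) [Finite D.Q] (x : Fin σ → X) (o : Y → Z) (a₀ : Z) :
    ∃ B : Prog C W Z σ (Nat.card D.Q), ∀ (I : C → W) (R : Set C) (i : Fin σ) (y : Y), Ev D I R (D.init (x i)) y →
      B.Outputs I (B.start i) (o y) ∧ ∀ c, B.Asks I (B.start i) c → c ∈ R := by
  have := Fintype.ofFinite D.Q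
  obtain ⟨B, hB⟩ := exists_prog (bact D o a₀) (fun i => D.init (x i))
  rw [Nat.card_eq_fintype_card]
  exact ⟨B, fun I R i y h => hB I R i (o y) h.good⟩

end toBP

/-! ## Machines with a subroutine -/

/-- The instructions of a machine: call the subroutine, return a value. -/
inductive MAct (X Y Z Y' : Type)
  | call (x : X) (k : Y → Z) : MAct X Y Z Y'
  | ret (y : Y') : MAct X Y Z Y'

/-- A main program with a subroutine which gets an argument in `X` and returns a value in `Y`. -/
structure Mach (X Y X' Y' : Type) where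
  Z : Type
  init : X' → Z
  act : Z → MAct X Y Z Y'

/-- The machine with the device as the subroutine. -/
def Mach.comp (M : Mach X Y X' Y') (D : Dev C W X Y) : Dev C W X' Y' where
  Q := M.Z ⊕ (M.Z × D.Q)
  init x := .inl (M.init x)
  act
    | .inl z => match M.act z with
      | .call x _ => .goto (.inr (z, D.init x))
      | .ret y => .ret y
    | .inr (z, q) => match D.act q with
      | .ask c k => .ask c (fun a => .inr (z, k a))
      | .goto q' => .goto (.inr (z, q'))
      | .ret y => match M.act z with
        | .call _ k => .goto (.inl (k y))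
        | .ret y' => .ret y'

variable {M : Mach X Y X' Y'} {D : Dev C W X Y} {I : C → W} {R : Set C}

theorem ev_sub {z : M.Z} {x : X} {k : Y → M.Z} (hz : M.act z = .call x k) {q : D.Q} {y : Y} (h : Ev D I R q y)
    {y' : Y'} (h' : Ev (M.comp D) I R (Sum.inl (k y)) y') : Ev (M.comp D) I R (Sum.inr (z, q)) y' := by
  induction h with
  | @ret q y h => exact .goto (q' := Sum.inl (k y)) (by simp only [Mach.comp, h, hz]) h'
  | @goto q q' y h _ ih => exact .goto (q' := Sum.inr (z, q')) (by simp only [Mach.comp, h]) (ih h')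
  | @ask q c kk y h hc _ ih =>
    exact .ask (c := c) (k := fun a => Sum.inr (z, kk a)) (by simp only [Mach.comp, h]) hc (ih h')

theorem ev_call {z : M.Z} {x : X} {k : Y → M.Z} (hz : M.act z = .call x k) {y : Y} (h : Ev D I R (D.init x) y)
    {y' : Y'} (h' : Ev (M.comp D) I R (Sum.inl (k y)) y') : Ev (M.comp D) I R (Sum.inl z) y' :=
  .goto (q' := Sum.inr (z, D.init x)) (by simp only [Mach.comp, hz]) (ev_sub hz h h')

theorem ev_ret {z : M.Z} {y' : Y'} (hz : M.act z = .ret y') : Ev (M.comp D) I R (Sum.inl z) y' :=
  .ret (by simp only [Mach.comp, hz])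

theorem card_comp (M : Mach X Y X' Y') (D : Dev C W X Y) [Finite M.Z] [Finite D.Q] :
    Nat.card (M.comp D).Q = Nat.card M.Z * (Nat.card D.Q + 1) := by
  show Nat.card (M.Z ⊕ (M.Z × D.Q)) = _
  rw [Nat.card_sum, Nat.card_prod]
  ring

end Pool.Agent.Helper98.NF
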