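import Pool.Agent.Helper98.NF.Sim
import Pool.Agent.Helper19.NF.Main

/-!
# The bound for programs with a pushdown store
-/

set_option autoImplicit false

namespace Pool.Agent.Helper98.NF

open Pool.Agent.Helper19.NF

/-- **The bound for deterministic pushdown programs which run for at most `2 ^ t` steps.** -/
theorem push_bound {n m : ℕ} [NeZero m] {B Y : Type} [AddCommGroup B] [Fintype B] (hn : 1 ≤ n) (x0 : Pos n m → B)
    (h0 : Function.Injective x0) {Q Γ : Type} [Finite Q] [Finite Γ] (P : PProg B (Dir m → B) Y Q Γ) (φ : B → Y)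
    (p T : ℕ) (hφ : ∀ y, Nat.card {b // φ b = y} ≤ p) (x : ℝ) (hx : 0 < x) (t : ℕ) :
    (Nat.card {I : B → Dir m → B // (∃ j ≤ 2 ^ t, P.act (P.conf I j).1 = .out (φ (out x0 I))) ∧
        Nat.card {b // P.Asks I b} ≤ T} : ℝ) ≤
      (((n * (n + 1) * m) ^ 2 + p) / Fintype.card B + n * m * ((T : ℝ) / Fintype.card B) ^ m +
        ((10 * Nat.card Q ^ 2 * (Nat.card Γ + 1) * (2 ^ t + 1) ^ 4) ^ (t + 1) : ℕ) *
          (Real.exp x * (4 * m ^ 2 * ((T : ℝ) / Fintype.card B) / x +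
          2 * m ^ 2 * n * ((T : ℝ) / Fintype.card B) ^ m) ^ (n - 1))) * Nat.card (B → Dir m → B) := by
  have : Nonempty Y := ⟨φ 0⟩
  obtain ⟨N, hN, E, hE⟩ := sim (fun y : Y => (y, (0 : Fin 1))) P t
  have h1 := main_bound hn x0 h0 E φ p T hφ x hx
  rw [Nat.cast_one, one_mul] at h1
  refine le_trans (Nat.cast_le.2 ?_) (h1.trans ?_)
  · refine Nat.card_le_card_of_injective (fun I => ⟨(0, I.1), ?_⟩) (fun I I' h => ?_)
    · obtain ⟨I, hI, hT⟩ := I
      obtain ⟨h2, h3⟩ := hE I _ hI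
      exact ⟨h2, (Nat.card_le_card_of_injective (fun c : {b // E.Asks I (E.start 0) b} =>
        (⟨c.1, h3 c.1 c.2⟩ : {b // P.Asks I b})) (fun c c' h => by simpa [Subtype.ext_iff] using h)).trans hT⟩
    · simpa [Subtype.ext_iff] using h
  · gcongr

end Pool.Agent.Helper98.NF
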