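import Pool.Agent.Helper98.NF.Dev

/-!
# A deterministic pushdown program which runs in time `2 ^ m` is simulated without a pushdown store

The second half of a computation reads the part of the stack made in the first half by computing it again.
-/

namespace Pool.Agent.Helper98.NF

open Pool.Agent.Helper19.NF

variable {C W Z S Γ : Type}

/-! ## Configurations -/

section conf

/-- The configuration `x` is stuck: it should pop a symbol from the empty stack. -/
def Stuck (P : PProg C W Z S Γ) (x : S × List Γ) : Prop := (∃ nx, P.act x.1 = .pop nx) ∧ x.2 = []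

/-- The configuration after `t` steps from the state `q` with empty stack. -/
def cf (P : PProg C W Z S Γ) (I : C → W) (q : S) (t : ℕ) : S × List Γ := (P.step I)^[t] (q, [])

open Classical in
/-- The number of steps made from `q` before `t` (the program may be stuck before). -/
noncomputable def tau (P : PProg C W Z S Γ) (I : C → W) (q : S) (t : ℕ) : ℕ :=
  Nat.find (p := fun n => n = t ∨ Stuck P (cf P I q n)) ⟨t, Or.inl rfl⟩

variable {P : PProg C W Z S Γ} {I : C → W}

theorem step_stuck {x : S × List Γ} (h : Stuck P x) : P.step I x = x := by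
  obtain ⟨⟨nx, h1⟩, h2⟩ := h
  unfold PProg.step
  simp only [h1, h2]

theorem iter_stuck {x : S × List Γ} (h : Stuck P x) (n : ℕ) : (P.step I)^[n] x = x := by
  induction n with
  | zero => rfl
  | succ n ih => rw [Function.iterate_succ_apply', ih, step_stuck h]

theorem step_floor {x : S × List Γ} (h : ¬ Stuck P x) (st : List Γ) :
    P.step I (x.1, x.2 ++ st) = ((P.step I x).1, (P.step I x).2 ++ st) := by
  obtain ⟨s, w⟩ := x
  unfold PProg.step
  rcases hs : P.act s with ⟨c, nx⟩ | ⟨g, s'⟩ | nx | a
  · rfl
  · simp only [List.cons_append]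
  · rcases w with _ | ⟨g, w⟩
    · exact absurd ⟨⟨nx, hs⟩, rfl⟩ h
    · simp only [List.cons_append]
  · rfl

theorem iter_floor {r : S} {n : ℕ} (h : ∀ u < n, ¬ Stuck P (cf P I r u)) (st : List Γ) :
    (P.step I)^[n] (r, st) = ((cf P I r n).1, (cf P I r n).2 ++ st) := by
  induction n with
  | zero => rfl
  | succ n ih =>
    rw [Function.iterate_succ_apply', ih (fun u hu => h u (by omega)), step_floor (h n (by omega))]
    unfold cf
    rw [Function.iterate_succ_apply']

theorem step_len (x : S × List Γ) : (P.step I x).2.length ≤ x.2.length + 1 := by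
  obtain ⟨s, w⟩ := x
  unfold PProg.step
  rcases hs : P.act s with ⟨c, nx⟩ | ⟨g, s'⟩ | nx | a
  · dsimp only; omega
  · simp only [List.length_cons]; omega
  · rcases w with _ | ⟨g, w⟩
    · dsimp only; omega
    · simp only [List.length_cons]; omega
  · dsimp only; omega

theorem cf_len (q : S) (t : ℕ) : (cf P I q t).2.length ≤ t := by
  induction t with
  | zero => exact le_rfl
  | succ t ih =>
    have h := step_len (P := P) (I := I) (cf P I q t)
    unfold cf at h ih ⊢
    rw [Function.iterate_succ_apply']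
    omega

theorem tau_le (q : S) (t : ℕ) : tau P I q t ≤ t := by
  classical
  exact Nat.find_min' _ (Or.inl rfl)

theorem tau_lt {q : S} {t u : ℕ} (h : u < tau P I q t) : ¬ Stuck P (cf P I q u) := by
  classical
  exact fun hs => Nat.find_min _ h (Or.inr hs)

theorem tau_stuck {q : S} {t : ℕ} (h : tau P I q t < t) : Stuck P (cf P I q (tau P I q t)) := by
  classical
  have h1 := Nat.find_spec (p := fun n => n = t ∨ Stuck P (cf P I q n)) ⟨t, Or.inl rfl⟩
  rcases h1 with h1 | h1
  · exact absurd h1 h.ne
  · exact h1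

theorem tau_eq {q : S} {t n : ℕ} (h1 : n ≤ t) (h2 : ∀ u < n, ¬ Stuck P (cf P I q u))
    (h3 : n < t → Stuck P (cf P I q n)) : tau P I q t = n := by
  classical
  refine (Nat.find_eq_iff _).2 ⟨?_, fun u hu h => ?_⟩
  · rcases h1.lt_or_eq with h | h
    · exact Or.inr (h3 h)
    · exact Or.inl h
  · rcases h with h | h
    · omega
    · exact h2 u hu h

theorem cf_tau (q : S) (t : ℕ) : cf P I q (tau P I q t) = cf P I q t := by
  rcases (tau_le (P := P) (I := I) q t).lt_or_eq with h | h
  · have h1 := tau_stuck h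
    have h2 : cf P I q t = (P.step I)^[t - tau P I q t] (cf P I q (tau P I q t)) := by
      unfold cf
      rw [← Function.iterate_add_apply]
      congr 2
      omega
    rw [h2, iter_stuck h1]
  · rw [h]

theorem cf_add (q : S) (t n : ℕ) : cf P I q (t + n) = (P.step I)^[n] (cf P I q t) := by
  unfold cf
  rw [← Function.iterate_add_apply, Nat.add_comm]

end conf

/-! ## The device -/

/-- Numbers at most `T`. -/
def cl (T n : ℕ) : Fin (T + 1) := ⟨min n T, by omega⟩

theorem cl_val {T n : ℕ} (h : n ≤ T) : (cl T n).val = n := by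
  simp only [cl]
  omega

/-- Arguments: a state, a time, a place in the stack. -/
abbrev X (S : Type) (T : ℕ) : Type := S × Fin (T + 1) × Fin (T + 1)

/-- Values: the state, the height of the stack, the number of the steps made, a symbol of the stack. -/
abbrev Y (S Γ : Type) (T : ℕ) : Type := S × Fin (T + 1) × Fin (T + 1) × Option Γ

/-- The value to be returned for the arguments `q`, `t`, `j`. -/
noncomputable def inf (P : PProg C W Z S Γ) (I : C → W) (T : ℕ) (q : S) (t j : ℕ) : Y S Γ T :=
  ((cf P I q t).1, cl T (cf P I q t).2.length, cl T (tau P I q t), (cf P I q t).2.reverse[j]?)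

/-- The cells queried before the time `t` from the state `q`. -/
def RR (P : PProg C W Z S Γ) (I : C → W) (q : S) (t : ℕ) : Set C :=
  {c | ∃ u < t, ∃ nx, P.act (cf P I q u).1 = .ask c nx}

theorem RR_mono {P : PProg C W Z S Γ} {I : C → W} {q : S} {t t' : ℕ} (h : t ≤ t') : RR P I q t ⊆ RR P I q t' :=
  fun _ ⟨u, hu, h'⟩ => ⟨u, hu.trans_le h, h'⟩

/-- The states of the devices for at most one step. -/
abbrev Q0 (S Γ : Type) (T : ℕ) : Type := X S T ⊕ Y S Γ T

/-- The instructions of the device for at most one step. -/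
noncomputable def bact0 (P : PProg C W Z S Γ) (T : ℕ) : Q0 S Γ T → DAct C W (Q0 S Γ T) (Y S Γ T)
  | .inl x => if x.2.1.val = 0 then .ret (x.1, cl T 0, cl T 0, none) else
    match P.act x.1 with
    | .ask c nx => .ask c (fun a => .inr (nx a, cl T 0, cl T 1, none))
    | .push g s => .ret (s, cl T 1, cl T 1, if x.2.2.val = 0 then some g else none)
    | .pop _ => .ret (x.1, cl T 0, cl T 0, none)
    | .out _ => .ret (x.1, cl T 0, cl T 1, none)
  | .inr y => .ret y

/-- The device for at most one step. -/
noncomputable def base (P : PProg C W Z S Γ) (T : ℕ) : Dev C W (X S T) (Y S Γ T) where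
  Q := Q0 S Γ T
  init := Sum.inl
  act := bact0 P T

theorem base_ev (P : PProg C W Z S Γ) (I : C → W) {T : ℕ} (hT : 1 ≤ T) (q : S) {t j : ℕ} (ht : t ≤ 1) (hj : j ≤ T) :
    Ev (base P T) I (RR P I q t) ((base P T).init (q, cl T t, cl T j)) (inf P I T q t j) := by
  have hv : (cl T t).val = t := cl_val (ht.trans hT)
  have hvj : (cl T j).val = j := cl_val hj
  obtain rfl | rfl : t = 0 ∨ t = 1 := by omega
  · refine .ret ?_
    have h0 : tau P I q 0 = 0 := Nat.le_zero.1 (tau_le q 0)
    show bact0 P T (.inl (q, cl T 0, cl T j)) = _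
    simp only [bact0, hv, if_true]
    unfold inf
    rw [h0]
    rfl
  · have hact : (base P T).act ((base P T).init (q, cl T 1, cl T j)) = (match P.act q with
      | .ask c nx => .ask c (fun a => .inr (nx a, cl T 0, cl T 1, none))
      | .push g s => .ret (s, cl T 1, cl T 1, if (cl T j).val = 0 then some g else none)
      | .pop _ => .ret (q, cl T 0, cl T 0, none)
      | .out _ => .ret (q, cl T 0, cl T 1, none)) := by
      show bact0 P T (.inl (q, cl T 1, cl T j)) = _
      simp only [bact0, hv, one_ne_zero, if_false]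
      cases P.act q <;> rfl
    rcases hs : P.act q with ⟨c, nx⟩ | ⟨g, s'⟩ | nx | a
    · have h1 : tau P I q 1 = 1 := by
        refine tau_eq le_rfl (fun u hu h => ?_) (fun h => absurd h (lt_irrefl 1))
        obtain rfl : u = 0 := by omega
        obtain ⟨nx', h'⟩ := h.1
        change P.act q = _ at h'
        rw [hs] at h'
        cases h'
      have h2 : cf P I q 1 = (nx (I c), []) := by
        show P.step I (q, []) = _
        unfold PProg.step
        simp only [hs]
      rw [hs] at hact
      refine .ask hact ⟨0, Nat.one_pos, nx, hs⟩ (.ret ?_)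
      unfold inf
      rw [h1, h2]
      rfl
    · have h1 : tau P I q 1 = 1 := by
        refine tau_eq le_rfl (fun u hu h => ?_) (fun h => absurd h (lt_irrefl 1))
        obtain rfl : u = 0 := by omega
        obtain ⟨nx', h'⟩ := h.1
        change P.act q = _ at h'
        rw [hs] at h'
        cases h'
      have h2 : cf P I q 1 = (s', [g]) := by
        show P.step I (q, []) = _
        unfold PProg.step
        simp only [hs]
      rw [hs] at hact
      refine .ret (hact.trans ?_)
      unfold inf
      rw [h1, h2, hvj]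
      dsimp only
      congr 1
      rcases j with _ | j
      · rfl
      · rw [if_neg (by omega)]
        rfl
    · have h0 : Stuck P (cf P I q 0) := ⟨⟨nx, hs⟩, rfl⟩
      have h1 : tau P I q 1 = 0 := tau_eq (Nat.zero_le 1) (fun u hu => absurd hu (Nat.not_lt_zero u)) (fun _ => h0)
      have h2 : cf P I q 1 = (q, []) := iter_stuck h0 1
      rw [hs] at hact
      refine .ret (hact.trans ?_)
      unfold inf
      rw [h1, h2]
      rfl
    · have h1 : tau P I q 1 = 1 := by
        refine tau_eq le_rfl (fun u hu h => ?_) (fun h => absurd h (lt_irrefl 1))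
        obtain rfl : u = 0 := by omega
        obtain ⟨nx', h'⟩ := h.1
        change P.act q = _ at h'
        rw [hs] at h'
        cases h'
      have h2 : cf P I q 1 = (q, []) := by
        show P.step I (q, []) = _
        unfold PProg.step
        simp only [hs]
      rw [hs] at hact
      refine .ret (hact.trans ?_)
      unfold inf
      rw [h1, h2]
      rfl

/-! ## The machine for twice as many steps -/

/-- The states of the machine: a number (0: begin, 1: second half, 2: fetch a symbol of the stack, 3: fetch the symbol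
asked for, 4: done), the arguments, two numbers and a symbol. -/
abbrev ZZ (S Γ : Type) (T : ℕ) : Type :=
  Fin 5 × (S × Fin (T + 1) × Fin (T + 1)) × (S × Fin (T + 1) × Fin (T + 1)) × Option Γ

/-- Done. -/
def dn {T : ℕ} (y : Y S Γ T) : ZZ S Γ T := (4, (y.1, y.2.1, y.2.2.1), (y.1, y.2.1, y.2.2.1), y.2.2.2)

/-- After the first half. -/
def k0 {T : ℕ} (h : ℕ) (x : X S T) (y : Y S Γ T) : ZZ S Γ T :=
  if y.2.2.1.val < h then dn (y.1, cl T 0, y.2.2.1, none) else (1, x, (y.1, y.2.1, cl T h), none)

/-- After a part of the second half. -/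
def k1 {T : ℕ} (x : X S T) (J t0 : Fin (T + 1)) (y : Y S Γ T) : ZZ S Γ T :=
  if y.2.2.1.val < x.2.1.val - t0.val then
    (if J.val = 0 then dn (y.1, cl T 0, cl T (t0.val + y.2.2.1.val), none)
      else (2, x, (y.1, J, cl T (t0.val + y.2.2.1.val)), none))
  else (if x.2.2.val < J.val then (3, x, (y.1, cl T (J.val + y.2.1.val), x.2.1), none)
    else dn (y.1, cl T (J.val + y.2.1.val), x.2.1, y.2.2.2))

/-- After a symbol of the stack has been fetched. -/
def k2 (P : PProg C W Z S Γ) {T : ℕ} (x : X S T) (r : S) (J t1 : Fin (T + 1)) (y : Y S Γ T) : ZZ S Γ T :=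
  match P.act r, y.2.2.2 with
  | .pop nx, some g => (1, x, (nx g, cl T (J.val - 1), cl T (t1.val + 1)), none)
  | _, _ => dn (r, J, t1, none)

/-- The instructions of the machine. With the number 1 and `(r, J, t0)`: at the time `t0` the state is `r` and the stack
consists of the first `J` symbols of the stack at the time `h`. -/
def mact (P : PProg C W Z S Γ) (T h : ℕ) : ZZ S Γ T → MAct (X S T) (Y S Γ T) (ZZ S Γ T) (Y S Γ T)
  | (0, x, _, _) => if x.2.1.val ≤ h then .call x dn else .call (x.1, cl T h, cl T 0) (k0 h x)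
  | (1, x, (r, J, t0), _) => .call (r, cl T (x.2.1.val - t0.val), cl T (x.2.2.val - J.val)) (k1 x J t0)
  | (2, x, (r, J, t1), _) => .call (x.1, cl T h, cl T (J.val - 1)) (k2 P x r J t1)
  | (3, x, (r, H, t1), _) => .call (x.1, cl T h, x.2.2) (fun y => dn (r, H, t1, y.2.2.2))
  | (4, _, (r, H, t1), g) => .ret (r, H, t1, g)

/-- The machine for at most `2 h` steps. -/
def mach (P : PProg C W Z S Γ) (T h : ℕ) : Mach (X S T) (Y S Γ T) (X S T) (Y S Γ T) where
  Z := ZZ S Γ T
  init x := (0, x, x, none)
  act := mact P T h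

/-- The state `(1, (q, t, j), (r, J, t0), none)` of the machine. -/
def lp {T : ℕ} (q : S) (t j : ℕ) (r : S) (J t0 : ℕ) : ZZ S Γ T :=
  (1, (q, cl T t, cl T j), (r, cl T J, cl T t0), none)

section correct

variable {P : PProg C W Z S Γ} {I : C → W} {T h : ℕ} {D : Dev C W (X S T) (Y S Γ T)}

/-- The stack which consists of the first `J` symbols of the stack of `x`. -/
def low (x : S × List Γ) (J : ℕ) : List Γ := x.2.drop (x.2.length - J)

theorem low_len {x : S × List Γ} {J : ℕ} (hJ : J ≤ x.2.length) : (low x J).length = J := by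
  unfold low
  rw [List.length_drop]
  omega

theorem low_full (x : S × List Γ) : low x x.2.length = x.2 := by
  unfold low
  rw [Nat.sub_self]
  rfl

theorem low_succ {x : S × List Γ} {J : ℕ} (hJ : J < x.2.length) :
    ∃ g, x.2.reverse[J]? = some g ∧ low x (J + 1) = g :: low x J := by
  have h1 : x.2.length - (J + 1) < x.2.length := by omega
  refine ⟨x.2[x.2.length - (J + 1)], ?_, ?_⟩
  · rw [List.getElem?_reverse hJ, List.getElem?_eq_some_iff]
    refine ⟨by omega, ?_⟩
    congr 1
    omega
  · unfold low
    rw [List.drop_eq_getElem_cons h1]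
    congr 2
    omega

theorem low_get {x : S × List Γ} {J j : ℕ} (hJ : J ≤ x.2.length) (hj : j < J) (w : List Γ) :
    (w ++ low x J).reverse[j]? = x.2.reverse[j]? := by
  have hl := low_len hJ
  rw [List.reverse_append, List.getElem?_append_left (by rw [List.length_reverse]; omega),
    List.getElem?_reverse (by omega), List.getElem?_reverse (by omega), hl]
  unfold low
  rw [List.getElem?_drop]
  congr 1
  omega

theorem low_get' {x : S × List Γ} {J j : ℕ} (hJ : J ≤ x.2.length) (hj : J ≤ j) (w : List Γ) :
    (w ++ low x J).reverse[j]? = w.reverse[j - J]? := by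
  have hl := low_len hJ
  rw [List.reverse_append, List.getElem?_append_right (by rw [List.length_reverse]; omega), List.length_reverse, hl]

theorem act_dn {y : Y S Γ T} : (mach P T h).act (dn y) = .ret y := rfl

/-- The steps from `r` with a stack below. -/
theorem cf_from {q r : S} {st : List Γ} {t0 n : ℕ} (h0 : cf P I q t0 = (r, st))
    (hn : ∀ u < n, ¬ Stuck P (cf P I r u)) : cf P I q (t0 + n) = ((cf P I r n).1, (cf P I r n).2 ++ st) := by
  rw [cf_add, h0, iter_floor hn]

theorem not_stuck_from {q r : S} {st : List Γ} {t0 n : ℕ} (h0 : cf P I q t0 = (r, st))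
    (hs : ∀ u < t0, ¬ Stuck P (cf P I q u)) (hn : ∀ u < n, ¬ Stuck P (cf P I r u)) :
    ∀ u < t0 + n, ¬ Stuck P (cf P I q u) := by
  intro u hu h'
  rcases lt_or_ge u t0 with h1 | h1
  · exact hs u h1 h'
  · obtain ⟨v, rfl⟩ := Nat.exists_eq_add_of_le h1
    rw [cf_from h0 (fun w hw => hn w (by omega))] at h'
    exact hn v (by omega) ⟨h'.1, (List.append_eq_nil_iff.1 h'.2).1⟩

theorem RR_from {q r : S} {st : List Γ} {t0 t : ℕ} (h0 : cf P I q t0 = (r, st)) (ht : t0 ≤ t) :
    RR P I r (t - t0) ⊆ RR P I q t := by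
  rintro c ⟨u, hu, nx, hc⟩
  have h1 : ∀ v < u, ¬ Stuck P (cf P I r v) := by
    intro v hv hs
    obtain ⟨w, rfl⟩ := Nat.exists_eq_add_of_le hv.le
    rw [cf_add, iter_stuck hs] at hc
    obtain ⟨nx', h'⟩ := hs.1
    rw [h'] at hc
    cases hc
  refine ⟨t0 + u, by omega, nx, ?_⟩
  rw [cf_from h0 h1]
  exact hc

/-- The second half. -/
theorem loop_ev (hh : 2 * h ≤ T) (hD : ∀ (q : S) (t j : ℕ), t ≤ h → j ≤ T →
      Ev D I (RR P I q t) (D.init (q, cl T t, cl T j)) (inf P I T q t j))
    (q : S) {t j : ℕ} (ht : t ≤ 2 * h) (hj : j ≤ T) :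
    ∀ (J : ℕ) (r : S) (t0 : ℕ), J ≤ (cf P I q h).2.length → h ≤ t0 → t0 ≤ t →
      cf P I q t0 = (r, low (cf P I q h) J) → (∀ u < t0, ¬ Stuck P (cf P I q u)) →
      Ev ((mach P T h).comp D) I (RR P I q t) (Sum.inl (lp q t j r J t0)) (inf P I T q t j) := by
  intro J
  induction J using Nat.strong_induction_on with
  | h J ih =>
    intro r t0 hJ h1 h2 h3 h4
    have hJh : J ≤ h := hJ.trans (cf_len q h)
    have vt : (cl T t).val = t := cl_val (by omega)
    have vj : (cl T j).val = j := cl_val hj
    have vJ : (cl T J).val = J := cl_val (by omega)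
    have vt0 : (cl T t0).val = t0 := cl_val (by omega)
    have hty : (cl T (tau P I r (t - t0))).val = tau P I r (t - t0) :=
      cl_val ((tau_le r _).trans (by omega))
    have hhy : (cl T (cf P I r (t - t0)).2.length).val = (cf P I r (t - t0)).2.length :=
      cl_val ((cf_len r _).trans (by omega))
    have hR : RR P I q h ⊆ RR P I q t := RR_mono (h1.trans h2)
    have hc : (mach P T h).act (lp q t j r J t0) =
        .call (r, cl T (t - t0), cl T (j - J)) (k1 (q, cl T t, cl T j) (cl T J) (cl T t0)) := by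
      show MAct.call (r, cl T ((cl T t).val - (cl T t0).val), cl T ((cl T j).val - (cl T J).val)) _ = _
      rw [vt, vt0, vj, vJ]
      rfl
    have hk : k1 (q, cl T t, cl T j) (cl T J) (cl T t0) (inf P I T r (t - t0) (j - J)) =
        if tau P I r (t - t0) < t - t0 then
        (if J = 0 then dn ((cf P I r (t - t0)).1, cl T 0, cl T (t0 + tau P I r (t - t0)), none)
          else (2, (q, cl T t, cl T j), ((cf P I r (t - t0)).1, cl T J, cl T (t0 + tau P I r (t - t0))), none))
        else (if j < J then (3, (q, cl T t, cl T j), ((cf P I r (t - t0)).1,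
            cl T (J + (cf P I r (t - t0)).2.length), cl T t), none)
        else dn ((cf P I r (t - t0)).1, cl T (J + (cf P I r (t - t0)).2.length), cl T t,
          (cf P I r (t - t0)).2.reverse[j - J]?)) := by
      simp only [k1, inf, vt, vt0, vj, vJ, hty, hhy]
    refine ev_call hc ((hD r (t - t0) (j - J) (by omega) (by omega)).mono (RR_from h3 h2)) ?_
    rw [hk]
    rcases (tau_le (P := P) (I := I) r (t - t0)).lt_or_eq with hlt | heq
    · rw [if_pos hlt]
      have hstk := tau_stuck hlt
      rw [cf_tau] at hstk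
      have hn : ∀ u < tau P I r (t - t0), ¬ Stuck P (cf P I r u) := fun u hu => tau_lt hu
      have h5 := cf_from h3 hn
      rw [cf_tau, hstk.2, List.nil_append] at h5
      have h6 := not_stuck_from h3 h4 hn
      obtain ⟨nx, hnx⟩ := hstk.1
      by_cases hJ0 : J = 0
      · subst hJ0
        rw [if_pos rfl]
        have hl : low (cf P I q h) 0 = ([] : List Γ) := List.length_eq_zero_iff.1 (low_len (Nat.zero_le _))
        rw [hl] at h5
        have h7 : Stuck P (cf P I q (t0 + tau P I r (t - t0))) := by
          rw [h5]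
          exact ⟨⟨nx, hnx⟩, rfl⟩
        have h8 : tau P I q t = t0 + tau P I r (t - t0) := tau_eq (by omega) h6 (fun _ => h7)
        have h9 : cf P I q t = ((cf P I r (t - t0)).1, []) := by
          rw [← cf_tau, h8, h5]
        have h10 : inf P I T q t j = ((cf P I r (t - t0)).1, cl T 0, cl T (t0 + tau P I r (t - t0)), none) := by
          unfold inf
          rw [h8, h9]
          rfl
        rw [h10]
        exact ev_ret act_dn
      · rw [if_neg hJ0]
        obtain ⟨J, rfl⟩ := Nat.exists_eq_add_one_of_ne_zero hJ0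
        obtain ⟨g, hg1, hg2⟩ := low_succ (x := cf P I q h) (J := J) (by omega)
        have vt1 : (cl T (t0 + tau P I r (t - t0))).val = t0 + tau P I r (t - t0) := cl_val (by omega)
        have hc2 : (mach P T h).act (2, (q, cl T t, cl T j),
            ((cf P I r (t - t0)).1, cl T (J + 1), cl T (t0 + tau P I r (t - t0))), none) =
            .call (q, cl T h, cl T J) (k2 P (q, cl T t, cl T j) (cf P I r (t - t0)).1 (cl T (J + 1))
              (cl T (t0 + tau P I r (t - t0)))) := by
          show MAct.call (q, cl T h, cl T ((cl T (J + 1)).val - 1)) _ = _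
          rw [vJ]
          rfl
        have hk2 : k2 P (q, cl T t, cl T j) (cf P I r (t - t0)).1 (cl T (J + 1))
            (cl T (t0 + tau P I r (t - t0))) (inf P I T q h J) =
            lp q t j (nx g) J (t0 + tau P I r (t - t0) + 1) := by
          simp only [k2, hnx, inf, hg1, vt1, vJ, Nat.add_sub_cancel, lp]
        refine ev_call hc2 ((hD q h J le_rfl (by omega)).mono hR) ?_
        rw [hk2]
        refine ih J (Nat.lt_succ_self J) _ _ (by omega) (by omega) (by omega) ?_ ?_
        · rw [cf_add, h5, hg2]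
          show P.step I _ = _
          unfold PProg.step
          simp only [hnx]
        · intro u hu
          rcases Nat.lt_succ_iff_lt_or_eq.1 hu with hu | rfl
          · exact h6 u hu
          · rw [h5, hg2]
            exact fun h => List.cons_ne_nil _ _ h.2
    · rw [if_neg (by omega)]
      have hn : ∀ u < t - t0, ¬ Stuck P (cf P I r u) := fun u hu => tau_lt (t := t - t0) (by omega)
      have h5 := cf_from h3 hn
      have h6 := not_stuck_from h3 h4 hn
      rw [Nat.add_sub_cancel' h2] at h5 h6
      have h8 : tau P I q t = t := tau_eq le_rfl h6 (fun h => absurd h (lt_irrefl t))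
      by_cases hjJ : j < J
      · rw [if_pos hjJ]
        have h9 : inf P I T q t j = ((cf P I r (t - t0)).1, cl T (J + (cf P I r (t - t0)).2.length), cl T t,
            (cf P I q h).2.reverse[j]?) := by
          unfold inf
          rw [h8, h5, low_get hJ hjJ, List.length_append, low_len hJ, Nat.add_comm J]
        have hc3 : (mach P T h).act (3, (q, cl T t, cl T j), ((cf P I r (t - t0)).1,
            cl T (J + (cf P I r (t - t0)).2.length), cl T t), none) =
            .call (q, cl T h, cl T j) (fun y => dn ((cf P I r (t - t0)).1,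
              cl T (J + (cf P I r (t - t0)).2.length), cl T t, y.2.2.2)) := rfl
        refine ev_call hc3 ((hD q h j le_rfl hj).mono hR) ?_
        rw [h9]
        exact ev_ret act_dn
      · rw [if_neg hjJ]
        have h9 : inf P I T q t j = ((cf P I r (t - t0)).1, cl T (J + (cf P I r (t - t0)).2.length), cl T t,
            (cf P I r (t - t0)).2.reverse[j - J]?) := by
          unfold inf
          rw [h8, h5, low_get' hJ (not_lt.1 hjJ), List.length_append, low_len hJ, Nat.add_comm J]
        rw [h9]
        exact ev_ret act_dn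

theorem mach_ev (hh : 2 * h ≤ T) (hD : ∀ (q : S) (t j : ℕ), t ≤ h → j ≤ T →
      Ev D I (RR P I q t) (D.init (q, cl T t, cl T j)) (inf P I T q t j))
    (q : S) {t j : ℕ} (ht : t ≤ 2 * h) (hj : j ≤ T) :
    Ev ((mach P T h).comp D) I (RR P I q t) (((mach P T h).comp D).init (q, cl T t, cl T j)) (inf P I T q t j) := by
  have vt : (cl T t).val = t := cl_val (by omega)
  show Ev ((mach P T h).comp D) I (RR P I q t)
    (Sum.inl ((0, (q, cl T t, cl T j), (q, cl T t, cl T j), none) : ZZ S Γ T)) _
  by_cases hth : t ≤ h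
  · have hc : (mach P T h).act (0, (q, cl T t, cl T j), (q, cl T t, cl T j), none) =
        .call (q, cl T t, cl T j) dn := by
      show mact P T h (0, (q, cl T t, cl T j), (q, cl T t, cl T j), none) = _
      simp only [mact, vt, hth, if_true]
      rfl
    exact ev_call hc (hD q t j hth hj) (ev_ret act_dn)
  · have hc : (mach P T h).act (0, (q, cl T t, cl T j), (q, cl T t, cl T j), none) =
        .call (q, cl T h, cl T 0) (k0 h (q, cl T t, cl T j)) := by
      show mact P T h (0, (q, cl T t, cl T j), (q, cl T t, cl T j), none) = _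
      simp only [mact, vt, hth, if_false]
      rfl
    have hty : (cl T (tau P I q h)).val = tau P I q h := cl_val ((tau_le q h).trans (by omega))
    refine ev_call hc ((hD q h 0 le_rfl (Nat.zero_le T)).mono (RR_mono (by omega))) ?_
    rcases (tau_le (P := P) (I := I) q h).lt_or_eq with hlt | heq
    · have hk : k0 h (q, cl T t, cl T j) (inf P I T q h 0) =
          dn ((cf P I q h).1, cl T 0, cl T (tau P I q h), none) := by
        simp only [k0, inf, hty, hlt, if_true]
      have hstk := tau_stuck hlt
      have h1 : tau P I q t = tau P I q h := tau_eq (by omega) (fun u hu => tau_lt hu) (fun _ => hstk)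
      rw [cf_tau] at hstk
      have h2 : cf P I q t = ((cf P I q h).1, []) := by
        rw [← cf_tau, h1, cf_tau, ← hstk.2]
      have h3 : inf P I T q t j = ((cf P I q h).1, cl T 0, cl T (tau P I q h), none) := by
        unfold inf
        rw [h1, h2]
        rfl
      rw [hk, h3]
      exact ev_ret act_dn
    · have hk : k0 h (q, cl T t, cl T j) (inf P I T q h 0) =
          lp q t j (cf P I q h).1 (cf P I q h).2.length h := by
        rw [heq] at hty
        simp only [k0, inf, heq, hty, lt_irrefl, if_false, lp]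
      rw [hk]
      refine loop_ev hh hD q ht hj _ _ _ le_rfl le_rfl (by omega) ?_ (fun u hu => tau_lt (t := h) (by omega))
      rw [low_full]

end correct

/-! ## The simulation -/

/-- The device for at most `2 ^ m` steps. -/
noncomputable def dev (P : PProg C W Z S Γ) (T : ℕ) : ℕ → Dev C W (X S T) (Y S Γ T)
  | 0 => base P T
  | m + 1 => (mach P T (2 ^ m)).comp (dev P T m)

theorem dev_ev (P : PProg C W Z S Γ) (I : C → W) {T : ℕ} (m : ℕ) (hT : 2 ^ m ≤ T) :
    ∀ (q : S) (t j : ℕ), t ≤ 2 ^ m → j ≤ T →
      Ev (dev P T m) I (RR P I q t) ((dev P T m).init (q, cl T t, cl T j)) (inf P I T q t j) := by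
  induction m with
  | zero => exact fun q t j ht hj => base_ev P I (by simpa using hT) q (by simpa using ht) hj
  | succ m ih =>
    have h2 : 2 * 2 ^ m ≤ T := by rw [← pow_succ']; exact hT
    exact fun q t j ht hj => mach_ev h2 (ih (by omega)) q (by rw [← pow_succ']; exact ht) hj

theorem dev_card (P : PProg C W Z S Γ) (T : ℕ) [Fintype S] [Fintype Γ] (m : ℕ) :
    Finite (dev P T m).Q ∧ Nat.card (dev P T m).Q ≤
      (10 * Fintype.card S ^ 2 * (Fintype.card Γ + 1) * (T + 1) ^ 4) ^ (m + 1) := by
  have hS : 1 ≤ Fintype.card S := Fintype.card_pos_iff.2 ⟨P.start⟩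
  have hcX : Nat.card (X S T) = Fintype.card S * ((T + 1) * (T + 1)) := by
    rw [Nat.card_prod, Nat.card_prod, Nat.card_eq_fintype_card, Nat.card_eq_fintype_card, Fintype.card_fin]
  have hcY : Nat.card (Y S Γ T) = Fintype.card S * ((T + 1) * ((T + 1) * (Fintype.card Γ + 1))) := by
    rw [Nat.card_prod, Nat.card_prod, Nat.card_prod, Nat.card_eq_fintype_card, Nat.card_eq_fintype_card,
      Nat.card_eq_fintype_card, Fintype.card_fin, Fintype.card_option]
  induction m with
  | zero =>
    refine ⟨inferInstanceAs (Finite (Q0 S Γ T)), ?_⟩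
    show Nat.card (Q0 S Γ T) ≤ _
    rw [Nat.card_sum, hcX, hcY]
    generalize Fintype.card S = s at hS
    generalize Fintype.card Γ = g
    have h1 : s ≤ s ^ 2 := Nat.le_self_pow two_ne_zero s
    have h2 : (T + 1) ^ 2 ≤ (T + 1) ^ 4 := Nat.pow_le_pow_right (Nat.succ_pos T) (by norm_num)
    have h3 : s * (T + 1) ^ 2 ≤ s ^ 2 * (T + 1) ^ 4 := Nat.mul_le_mul h1 h2
    have h4 : s * (T + 1) ^ 2 * (g + 1) ≤ s ^ 2 * (T + 1) ^ 4 * (g + 1) := Nat.mul_le_mul_right _ h3
    have h5 : s ^ 2 * (T + 1) ^ 4 ≤ s ^ 2 * (T + 1) ^ 4 * (g + 1) := Nat.le_mul_of_pos_right _ (Nat.succ_pos g)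
    calc s * ((T + 1) * (T + 1)) + s * ((T + 1) * ((T + 1) * (g + 1)))
        = s * (T + 1) ^ 2 + s * (T + 1) ^ 2 * (g + 1) := by ring
      _ ≤ 10 * (s ^ 2 * (T + 1) ^ 4 * (g + 1)) := by omega
      _ = (10 * s ^ 2 * (g + 1) * (T + 1) ^ 4) ^ (0 + 1) := by ring
  | succ m ih =>
    obtain ⟨h1, h2⟩ := ih
    have h3 : Finite (mach P T (2 ^ m)).Z := inferInstanceAs (Finite (ZZ S Γ T))
    refine ⟨inferInstanceAs (Finite ((mach P T (2 ^ m)).Z ⊕ ((mach P T (2 ^ m)).Z × (dev P T m).Q))), ?_⟩
    show Nat.card ((mach P T (2 ^ m)).comp (dev P T m)).Q ≤ _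
    rw [card_comp]
    have h4 : Nat.card (mach P T (2 ^ m)).Z = 5 * Fintype.card S ^ 2 * (Fintype.card Γ + 1) * (T + 1) ^ 4 := by
      show Nat.card (Fin 5 × X S T × X S T × Option Γ) = _
      rw [Nat.card_prod, Nat.card_prod (X S T), Nat.card_prod (X S T), hcX, Nat.card_eq_fintype_card (α := Fin 5),
        Nat.card_eq_fintype_card (α := Option Γ), Fintype.card_fin, Fintype.card_option]
      ring
    rw [h4]
    generalize Fintype.card S = s at hS h2
    generalize Fintype.card Γ = g at h2
    have h5 : 1 ≤ (10 * s ^ 2 * (g + 1) * (T + 1) ^ 4) ^ (m + 1) := Nat.one_le_iff_ne_zero.2 (by positivity)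
    calc 5 * s ^ 2 * (g + 1) * (T + 1) ^ 4 * (Nat.card (dev P T m).Q + 1)
        ≤ 5 * s ^ 2 * (g + 1) * (T + 1) ^ 4 * (2 * (10 * s ^ 2 * (g + 1) * (T + 1) ^ 4) ^ (m + 1)) :=
          Nat.mul_le_mul_left _ (by omega)
      _ = (10 * s ^ 2 * (g + 1) * (T + 1) ^ 4) ^ (m + 1 + 1) := by ring

/-- **Simulation.** A deterministic pushdown program which stops within `2 ^ m` steps is simulated by a deterministic
program without stack which queries only cells queried by it. -/
theorem sim [Finite S] [Finite Γ] {Z' : Type} [Nonempty Z'] (o : Z → Z') (P : PProg C W Z S Γ) (m : ℕ) :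
    ∃ N ≤ (10 * Nat.card S ^ 2 * (Nat.card Γ + 1) * (2 ^ m + 1) ^ 4) ^ (m + 1), ∃ B : Prog C W Z' 1 N,
      ∀ (I : C → W) (a : Z), (∃ t ≤ 2 ^ m, P.act (P.conf I t).1 = .out a) →
        B.Outputs I (B.start 0) (o a) ∧ ∀ c, B.Asks I (B.start 0) c → P.Asks I c := by
  have := Fintype.ofFinite S
  have := Fintype.ofFinite Γ
  rw [Nat.card_eq_fintype_card, Nat.card_eq_fintype_card]
  obtain ⟨a₀⟩ := ‹Nonempty Z'›
  obtain ⟨h1, h2⟩ := dev_card P (2 ^ m) m
  obtain ⟨B, hB⟩ := (dev P (2 ^ m) m).toProg (fun _ : Fin 1 => (P.start, cl (2 ^ m) (2 ^ m), cl (2 ^ m) 0))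
    (fun y => match P.act y.1 with
      | .out a => o a
      | _ => a₀) a₀
  refine ⟨_, h2, B, fun I a hI => ?_⟩
  obtain ⟨t, ht, ha⟩ := hI
  have hs : P.step I (P.conf I t) = P.conf I t := by
    unfold PProg.step
    simp only [ha]
  have h3 : cf P I P.start (2 ^ m) = P.conf I t := by
    obtain ⟨u, hu⟩ := Nat.exists_eq_add_of_le ht
    rw [hu, cf_add]
    show (P.step I)^[u] (P.conf I t) = _
    exact Function.iterate_fixed hs u
  have h4 := hB I _ 0 _ (dev_ev P I m le_rfl P.start (2 ^ m) 0 le_rfl (Nat.zero_le _))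
  have h5 : (inf P I (2 ^ m) P.start (2 ^ m) 0).1 = (P.conf I t).1 := congrArg Prod.fst h3
  simp only [h5, ha] at h4
  exact ⟨h4.1, fun c hc => by
    obtain ⟨u, -, nx, h⟩ := h4.2 c hc
    exact ⟨u, nx, h⟩⟩

end Pool.Agent.Helper98.NF
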